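import Pool.Agent.Work.MP_f8dec8_al.Graph
import Pool.Agent.Work.MP_f8dec8_al.Final

/-! A group acting geometrically on two Helly graphs whose injective hulls have
non-homeomorphic boundaries. -/

open Pool.Agent.Work.MP_f8dec8_al

theorem Pool.Agent.Results.MP_f8dec8_al.TwoBoundaries.result :
    ∃ (G : Type) (_ : Group G) (V₁ V₂ : Type) (Γ₁ : SimpleGraph V₁) (Γ₂ : SimpleGraph V₂)
      (_ : Fact Γ₁.Connected) (_ : Fact Γ₂.Connected) (_ : MulAction G V₁) (_ : MulAction G V₂),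
      IsHelly Γ₁ ∧ IsHelly Γ₂ ∧ IsGeometric G Γ₁ ∧ IsGeometric G Γ₂ ∧
      (∃ σ₁ : Hull Γ₁ → Hull Γ₁ → ℝ → Hull Γ₁, IsBicombing σ₁) ∧
      (∃ σ₂ : Hull Γ₂ → Hull Γ₂ → ℝ → Hull Γ₂, IsBicombing σ₂) ∧
      ∀ (σ₁ : Hull Γ₁ → Hull Γ₁ → ℝ → Hull Γ₁) (σ₂ : Hull Γ₂ → Hull Γ₂ → ℝ → Hull Γ₂),
        IsBicombing σ₁ → IsBicombing σ₂ → ∀ (o₁ : Hull Γ₁) (o₂ : Hull Γ₂),
          IsEmpty (Boundary σ₁ o₁ ≃ₜ Boundary σ₂ o₂) := by
  refine ⟨GG, inferInstance, V true, V false, Gr true, Gr false, inferInstance, inferInstance,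
    inferInstance, inferInstance, gr_helly, gr_helly, gr_geometric, gr_geometric, hull_bicombing,
    hull_bicombing, fun σ₁ σ₂ h₁ h₂ o₁ o₂ => ⟨fun h => ?_⟩⟩
  have := proper_of_io (d := true) io_surj dist_io
  have := proper_of_io (d := false) io_surj dist_io
  have S₁ : Setup true (io true) σ₁ := ⟨io_surj, dist_io, h₁⟩
  have S₂ : Setup false (io false) σ₂ := ⟨io_surj, dist_io, h₂⟩
  obtain ⟨N, h1, h2⟩ := S₁.good_inv (o := o₁)
  exact S₂.not_inv (h1.map h) (h2.map h)
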